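import Mathlib

namespace Pool.Agent.W409.JL

theorem irr_aux {r : ℝ} (hr : Irrational r) (p q : ℚ) (h : (p : ℝ) + (q : ℝ) * r = 0) :
    p = 0 ∧ q = 0 := by
  have hq : q = 0 := by
    by_contra hq
    have hq' : (q : ℝ) ≠ 0 := by exact_mod_cast hq
    apply hr
    refine ⟨-p / q, ?_⟩
    push_cast
    field_simp
    linarith
  subst hq
  refine ⟨?_, rfl⟩
  have : (p : ℝ) = 0 := by simpa using h
  exact_mod_cast this

theorem irr2 : Irrational (Real.sqrt 2) := irrational_sqrt_two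

theorem irr3 : Irrational (Real.sqrt 3) := by
  have := Nat.Prime.irrational_sqrt (p := 3) (by norm_num)
  simpa using this

theorem irr6 : Irrational (Real.sqrt 6) := by
  have h : ¬ IsSquare (6 : ℕ) := by
    rintro ⟨k, hk⟩
    have : k ≤ 2 := by nlinarith
    interval_cases k <;> omega
  have := irrational_sqrt_natCast_iff (n := 6)
  have h2 := this.2 h
  simpa using h2

theorem s2 : Real.sqrt 2 * Real.sqrt 2 = 2 := Real.mul_self_sqrt (by norm_num)
theorem s3 : Real.sqrt 3 * Real.sqrt 3 = 3 := Real.mul_self_sqrt (by norm_num)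
theorem s23 : Real.sqrt 2 * Real.sqrt 3 = Real.sqrt 6 := by
  rw [← Real.sqrt_mul (by norm_num)]
  norm_num
theorem s26 : Real.sqrt 2 * Real.sqrt 6 = 2 * Real.sqrt 3 := by
  rw [← s23, ← mul_assoc, s2]
theorem s36 : Real.sqrt 3 * Real.sqrt 6 = 3 * Real.sqrt 2 := by
  rw [← s23, mul_comm (Real.sqrt 2), ← mul_assoc, s3]
theorem s66 : Real.sqrt 6 * Real.sqrt 6 = 6 := Real.mul_self_sqrt (by norm_num)

theorem indep (a b c d : ℚ)
    (h : (a : ℝ) + b * Real.sqrt 2 + c * Real.sqrt 3 + d * Real.sqrt 6 = 0) :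
    a = 0 ∧ b = 0 ∧ c = 0 ∧ d = 0 := by
  set N : ℚ := c ^ 2 - 2 * d ^ 2 with hN
  set P : ℚ := -(a * c - 2 * b * d) with hP
  set Q : ℚ := -(b * c - a * d) with hQ
  have e1 : (N : ℝ) * Real.sqrt 3 = P + Q * Real.sqrt 2 := by
    have e0 : (c : ℝ) * Real.sqrt 3 + d * Real.sqrt 6 = -(a + b * Real.sqrt 2) := by linarith
    have e2 : ((c : ℝ) - d * Real.sqrt 2) * (c * Real.sqrt 3 + d * Real.sqrt 6)
        = ((c : ℝ) - d * Real.sqrt 2) * (-(a + b * Real.sqrt 2)) := by rw [e0]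
    have h1 := s2
    have h2 := s23
    have h3 := s26
    rw [hN, hP, hQ]
    push_cast
    have e3 : ((c : ℝ) - d * Real.sqrt 2) * (c * Real.sqrt 3 + d * Real.sqrt 6)
        = (c ^ 2 - 2 * d ^ 2) * Real.sqrt 3 := by
      have : ((c : ℝ) - d * Real.sqrt 2) * (c * Real.sqrt 3 + d * Real.sqrt 6)
        = c ^ 2 * Real.sqrt 3 + c * d * Real.sqrt 6 - c * d * (Real.sqrt 2 * Real.sqrt 3)
          - d ^ 2 * (Real.sqrt 2 * Real.sqrt 6) := by ring
      rw [this, h2, h3]; ring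
    have e4 : ((c : ℝ) - d * Real.sqrt 2) * (-(a + b * Real.sqrt 2))
        = -(a * c - 2 * b * d) + -(b * c - a * d) * Real.sqrt 2 := by
      have : ((c : ℝ) - d * Real.sqrt 2) * (-(a + b * Real.sqrt 2))
        = -(a * c) - b * c * Real.sqrt 2 + a * d * Real.sqrt 2
          + b * d * (Real.sqrt 2 * Real.sqrt 2) := by ring
      rw [this, h1]; ring
    rw [← e3, e2, e4]
  have hN0 : N = 0 := by
    have e5 : (3 * N ^ 2 - P ^ 2 - 2 * Q ^ 2 : ℝ) + (-(2 * P * Q)) * Real.sqrt 2 = 0 := by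
      have : ((N : ℝ) * Real.sqrt 3) * (N * Real.sqrt 3)
          = (P + Q * Real.sqrt 2) * (P + Q * Real.sqrt 2) := by rw [e1]
      have h1 := s2
      have h2 := s3
      have l1 : ((N : ℝ) * Real.sqrt 3) * (N * Real.sqrt 3) = 3 * N ^ 2 := by
        have : ((N : ℝ) * Real.sqrt 3) * (N * Real.sqrt 3)
          = N ^ 2 * (Real.sqrt 3 * Real.sqrt 3) := by ring
        rw [this, h2]; ring
      have l2 : ((P : ℝ) + Q * Real.sqrt 2) * (P + Q * Real.sqrt 2)
          = P ^ 2 + 2 * Q ^ 2 + 2 * P * Q * Real.sqrt 2 := by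
        have : ((P : ℝ) + Q * Real.sqrt 2) * (P + Q * Real.sqrt 2)
          = P ^ 2 + Q ^ 2 * (Real.sqrt 2 * Real.sqrt 2) + 2 * P * Q * Real.sqrt 2 := by ring
        rw [this, h1]; ring
      rw [l1, l2] at this
      linarith
    have e6 := irr_aux irr2 (3 * N ^ 2 - P ^ 2 - 2 * Q ^ 2) (-(2 * P * Q))
      (by push_cast; exact e5)
    have hPQ : P = 0 ∨ Q = 0 := by
      have : P * Q = 0 := by linarith [e6.2]
      exact mul_eq_zero.1 this
    rcases hPQ with hp | hq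
    · have e7 : ((0 : ℚ) : ℝ) = 0 := by simp
      rw [hp] at e1
      have e8 : ((3 * N : ℚ) : ℝ) + ((-Q : ℚ) : ℝ) * Real.sqrt 6 = 0 := by
        have : Real.sqrt 3 * ((N : ℝ) * Real.sqrt 3) = Real.sqrt 3 * (((0:ℚ) : ℝ) + Q * Real.sqrt 2) := by
          rw [e1]
        have l1 : Real.sqrt 3 * ((N : ℝ) * Real.sqrt 3) = 3 * N := by
          have : Real.sqrt 3 * ((N : ℝ) * Real.sqrt 3) = N * (Real.sqrt 3 * Real.sqrt 3) := by ring
          rw [this, s3]; ring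
        have l2 : Real.sqrt 3 * (((0:ℚ) : ℝ) + Q * Real.sqrt 2) = Q * Real.sqrt 6 := by
          rw [← s23]; push_cast; ring
        rw [l1, l2] at this
        push_cast
        linarith
      have := (irr_aux irr6 _ _ e8).1
      linarith
    · rw [hq] at e1
      have e8 : ((-P : ℚ) : ℝ) + (N : ℝ) * Real.sqrt 3 = 0 := by
        rw [e1]; push_cast; ring
      exact (irr_aux irr3 _ _ e8).2
  have hcd : c = 0 ∧ d = 0 := by
    have hd : d = 0 := by
      by_contra hd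
      have hd' : (d : ℝ) ≠ 0 := by exact_mod_cast hd
      have e9 : (c / d) ^ 2 = 2 := by
        field_simp
        linarith
      have e10 : Real.sqrt 2 = |((c / d : ℚ) : ℝ)| := by
        rw [← Real.sqrt_sq_eq_abs]
        congr 1
        exact_mod_cast e9.symm
      apply irr2
      refine ⟨|c / d|, ?_⟩
      rw [e10]
      push_cast
      rfl
    refine ⟨?_, hd⟩
    rw [hd] at hN
    have : c ^ 2 = 0 := by
      rw [hN0] at hN
      linarith
    exact pow_eq_zero_iff (by norm_num) |>.1 this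
  obtain ⟨hc, hd⟩ := hcd
  subst hc
  subst hd
  have := irr_aux irr2 a b (by push_cast at h; linarith)
  exact ⟨this.1, this.2, rfl, rfl⟩

/-- the subalgebra spanned by 1, √2, √3, √6 -/
noncomputable def A : Subalgebra ℚ ℝ where
  carrier := {x | ∃ a b c d : ℚ,
    x = (a : ℝ) + b * Real.sqrt 2 + c * Real.sqrt 3 + d * Real.sqrt 6}
  mul_mem' := by
    rintro x y ⟨a, b, c, d, rfl⟩ ⟨a', b', c', d', rfl⟩
    refine ⟨a * a' + 2 * (b * b') + 3 * (c * c') + 6 * (d * d'),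
      a * b' + b * a' + 3 * (c * d') + 3 * (d * c'),
      a * c' + c * a' + 2 * (b * d') + 2 * (d * b'),
      a * d' + d * a' + b * c' + c * b', ?_⟩
    push_cast
    have : ((a : ℝ) + b * Real.sqrt 2 + c * Real.sqrt 3 + d * Real.sqrt 6)
      * (a' + b' * Real.sqrt 2 + c' * Real.sqrt 3 + d' * Real.sqrt 6)
      = a * a' + (a * b' + b * a') * Real.sqrt 2 + (a * c' + c * a') * Real.sqrt 3
        + (a * d' + d * a') * Real.sqrt 6
        + b * b' * (Real.sqrt 2 * Real.sqrt 2) + c * c' * (Real.sqrt 3 * Real.sqrt 3)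
        + d * d' * (Real.sqrt 6 * Real.sqrt 6)
        + (b * c' + c * b') * (Real.sqrt 2 * Real.sqrt 3)
        + (b * d' + d * b') * (Real.sqrt 2 * Real.sqrt 6)
        + (c * d' + d * c') * (Real.sqrt 3 * Real.sqrt 6) := by ring
    rw [this, s2, s3, s66, s23, s26, s36]
    ring
  add_mem' := by
    rintro x y ⟨a, b, c, d, rfl⟩ ⟨a', b', c', d', rfl⟩
    refine ⟨a + a', b + b', c + c', d + d', ?_⟩
    push_cast
    ring
  algebraMap_mem' := by
    intro r
    refine ⟨r, 0, 0, 0, ?_⟩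
    simp

theorem mem_A {x : ℝ} : x ∈ A ↔ ∃ a b c d : ℚ,
    x = (a : ℝ) + b * Real.sqrt 2 + c * Real.sqrt 3 + d * Real.sqrt 6 := Iff.rfl

theorem alg_sqrt (n : ℕ) : IsIntegral ℚ (Real.sqrt n) := by
  apply IsIntegral.of_pow (n := 2) (by norm_num)
  rw [Real.sq_sqrt (by positivity)]
  exact isIntegral_algebraMap (R := ℚ) (A := ℝ) (x := (n : ℚ)) |> fun h => by simpa using h

theorem alg_of_mem {x : ℝ} (hx : x ∈ A) : IsAlgebraic ℚ x := by
  obtain ⟨a, b, c, d, rfl⟩ := hx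
  have hq : ∀ q : ℚ, IsIntegral ℚ (q : ℝ) := fun q => by
    have := isIntegral_algebraMap (R := ℚ) (A := ℝ) (x := q)
    simpa using this
  have h2 : IsIntegral ℚ (Real.sqrt 2) := by simpa using alg_sqrt 2
  have h3 : IsIntegral ℚ (Real.sqrt 3) := by simpa using alg_sqrt 3
  have h6 : IsIntegral ℚ (Real.sqrt 6) := by simpa using alg_sqrt 6
  exact ((((hq a).add ((hq b).mul h2)).add ((hq c).mul h3)).add ((hq d).mul h6)).isAlgebraic

noncomputable def K : IntermediateField ℚ ℝ :=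
  A.toIntermediateField (fun x hx => by
    have := Subalgebra.inv_mem_of_algebraic (A := A) (x := ⟨x, hx⟩) (alg_of_mem hx)
    exact this)

theorem mem_K {x : ℝ} : x ∈ K ↔ ∃ a b c d : ℚ,
    x = (a : ℝ) + b * Real.sqrt 2 + c * Real.sqrt 3 + d * Real.sqrt 6 := Iff.rfl

theorem v0 : (Fin.cons 1 (![Real.sqrt 2, Real.sqrt 3, Real.sqrt 6] : Fin 3 → ℝ) :
    Fin (3 + 1) → ℝ) 0 = 1 := rfl
theorem v1 : (Fin.cons 1 (![Real.sqrt 2, Real.sqrt 3, Real.sqrt 6] : Fin 3 → ℝ) :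
    Fin (3 + 1) → ℝ) 1 = Real.sqrt 2 := rfl
theorem v2 : (Fin.cons 1 (![Real.sqrt 2, Real.sqrt 3, Real.sqrt 6] : Fin 3 → ℝ) :
    Fin (3 + 1) → ℝ) 2 = Real.sqrt 3 := rfl
theorem v3 : (Fin.cons 1 (![Real.sqrt 2, Real.sqrt 3, Real.sqrt 6] : Fin 3 → ℝ) :
    Fin (3 + 1) → ℝ) 3 = Real.sqrt 6 := rfl

theorem sq_li : LinearIndependent ℚ
    (Fin.cons 1 (![Real.sqrt 2, Real.sqrt 3, Real.sqrt 6] : Fin 3 → ℝ) : Fin (3 + 1) → ℝ) := by
  rw [Fintype.linearIndependent_iff]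
  intro g hg
  have h0 : (g 0 : ℝ) + g 1 * Real.sqrt 2 + g 2 * Real.sqrt 3 + g 3 * Real.sqrt 6 = 0 := by
    rw [Fin.sum_univ_four] at hg
    simp only [Algebra.smul_def, v0, v1, v2, v3] at hg
    simpa using hg
  obtain ⟨h1, h2, h3, h4⟩ := indep _ _ _ _ h0
  intro i
  fin_cases i
  · exact h1
  · exact h2
  · exact h3
  · exact h4

theorem sq : ∃ K : IntermediateField ℚ ℝ, Module.finrank ℚ K = 3 + 1 ∧
    (∀ s : Fin 3, (![Real.sqrt 2, Real.sqrt 3, Real.sqrt 6] : Fin 3 → ℝ) s ∈ K) ∧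
    LinearIndependent ℚ
      (Fin.cons 1 (![Real.sqrt 2, Real.sqrt 3, Real.sqrt 6] : Fin 3 → ℝ) : Fin (3 + 1) → ℝ) := by
  refine ⟨K, ?_, ?_, sq_li⟩
  · have hspan : Subalgebra.toSubmodule K.toSubalgebra = Submodule.span ℚ (Set.range
        (Fin.cons 1 (![Real.sqrt 2, Real.sqrt 3, Real.sqrt 6] : Fin 3 → ℝ) : Fin (3 + 1) → ℝ)) := by
      apply le_antisymm
      · intro x hx
        obtain ⟨a, b, c, d, rfl⟩ := hx
        rw [Submodule.mem_span_range_iff_exists_fun]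
        refine ⟨![a, b, c, d], ?_⟩
        rw [Fin.sum_univ_four]
        simp only [Algebra.smul_def, v0, v1, v2, v3]
        simp
      · rw [Submodule.span_le]
        rintro x ⟨i, rfl⟩
        fin_cases i
        · exact ⟨1, 0, 0, 0, by simp⟩
        · exact ⟨0, 1, 0, 0, by simp⟩
        · exact ⟨0, 0, 1, 0, by simp⟩
        · exact ⟨0, 0, 0, 1, by simp⟩
    have h1 : Module.finrank ℚ K = Module.finrank ℚ (Subalgebra.toSubmodule K.toSubalgebra) := rfl
    rw [h1, hspan, finrank_span_eq_card sq_li]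
    simp
  · intro s
    fin_cases s
    · exact ⟨0, 1, 0, 0, by simp⟩
    · exact ⟨0, 0, 1, 0, by simp⟩
    · exact ⟨0, 0, 0, 1, by simp⟩

end Pool.Agent.W409.JL
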